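import Mathlib

namespace Pool.Agent.Results.MP_76953b_al.VirtCyclic
open Filter Topology

/-- the metric-functional boundary of `(G, d)` -/
def bdry {G : Type*} [Group G] (d : G → G → ℤ) : Set (G → ℝ) :=
  {f | ∃ x : ℕ → G, Tendsto (fun n => d (x n) 1) atTop atTop ∧
    ∀ y, Tendsto (fun n => ((d (x n) y - d (x n) 1 : ℤ) : ℝ)) atTop (𝓝 (f y))}

lemma ev_eq {a : ℕ → ℤ} {r : ℝ} (h : Tendsto (fun n => (a n : ℝ)) atTop (𝓝 r)) :
    ∀ᶠ n in atTop, (a n : ℝ) = r := by
  obtain ⟨k, rfl⟩ : r ∈ Set.range (Int.cast : ℤ → ℝ) :=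
    Int.isClosedEmbedding_coe_real.isClosed_range.mem_of_tendsto h
      (Eventually.of_forall fun n => ⟨_, rfl⟩)
  have := Int.isClosedEmbedding_coe_real.isEmbedding.tendsto_nhds_iff.2 h
  rw [nhds_discrete, tendsto_pure] at this
  exact this.mono fun n hn => by rw [hn]

theorem result {G : Type*} [Group G] (d : G → G → ℤ)
    (hzero : ∀ x y, d x y = 0 ↔ x = y) (hsymm : ∀ x y, d x y = d y x)
    (htri : ∀ x y z, d x z ≤ d x y + d y z)
    (hinv : ∀ g x y, d (g * x) (g * y) = d x y)
    (hprop : ∀ x r, {y | d x y ≤ r}.Finite)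
    (hunb : ∀ f ∈ bdry d, ¬ ∃ C : ℝ, ∀ y, |f y| ≤ C)
    (hfin : (bdry d).Finite) :
    ∃ g : G, (Subgroup.zpowers g).FiniteIndex := by
  classical
  rcases finite_or_infinite G with hG | hG
  · exact ⟨1, inferInstance⟩
  have hnn : ∀ x y, 0 ≤ d x y := fun x y => by
    have := htri x y x; have := (hzero x x).2 rfl; have := hsymm x y; omega
  have : Countable G := by
    rw [← Set.countable_univ_iff]
    refine (Set.countable_iUnion fun r : ℤ => (hprop 1 r).countable).mono fun y _ => ?_
    exact Set.mem_iUnion.2 ⟨d 1 y, le_refl (d 1 y)⟩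
  -- accumulation of the functions `b_x` along an infinite set
  have acc : ∀ A : Set G, A.Infinite → ∃ f ∈ bdry d, ∀ B : Finset G, ∃ x ∈ A,
      ∀ y ∈ B, ((d x y - d x 1 : ℤ) : ℝ) = f y := by
    intro A hA
    let e := hA.natEmbedding
    have hc : IsCompact (Set.pi Set.univ fun y : G => Set.Icc (-(d y 1 : ℝ)) (d y 1)) :=
      isCompact_univ_pi fun _ => isCompact_Icc
    obtain ⟨f, -, φ, hφ, hlim⟩ := hc.tendsto_subseq
      (x := fun n y => ((d (e n) y - d (e n) 1 : ℤ) : ℝ)) (by
        intro n y _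
        have h1 := htri (e n) y 1
        have h2 := htri (e n) 1 y
        have h3 := hsymm y 1
        beta_reduce
        constructor
        · have : -(d y 1) ≤ d (e n) y - d (e n) 1 := by omega
          exact_mod_cast this
        · have : d (e n) y - d (e n) 1 ≤ d y 1 := by omega
          exact_mod_cast this)
    have hl := tendsto_pi_nhds.1 hlim
    refine ⟨f, ⟨fun n => e (φ n), ?_, hl⟩, fun B => ?_⟩
    · rw [tendsto_atTop]
      intro r
      have hinj : Function.Injective (fun n => (e (φ n) : G)) :=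
        Subtype.val_injective.comp (e.injective.comp hφ.injective)
      have := (hprop 1 r).preimage hinj.injOn
      rw [← Nat.cofinite_eq_atTop]
      refine this.compl_mem_cofinite |> fun h => mem_of_superset h fun n hn => ?_
      simp only [Set.mem_compl_iff, Set.mem_preimage, Set.mem_ofPred_eq, not_le] at hn ⊢
      rw [hsymm]; exact hn.le
    · obtain ⟨n, hn⟩ := ((eventually_all_finset B).2 fun y _ => ev_eq (hl y)).exists
      exact ⟨e (φ n), (e (φ n)).2, hn⟩
  have near : ∀ B : Finset G,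
      {x | ¬ ∃ f ∈ bdry d, ∀ y ∈ B, ((d x y - d x 1 : ℤ) : ℝ) = f y}.Finite := by
    intro B
    by_contra h
    obtain ⟨f, hf, hB⟩ := acc _ h
    obtain ⟨x, hx, hx'⟩ := hB B
    exact hx ⟨f, hf, hx'⟩
  -- the action on the boundary
  have hact : ∀ (g : G), ∀ f ∈ bdry d, (fun y => f (g⁻¹ * y) - f g⁻¹) ∈ bdry d := by
    rintro g f ⟨x, h1, h2⟩
    have e : ∀ n y, d (g * x n) y = d (x n) (g⁻¹ * y) := fun n y => by
      rw [← hinv g (x n)]; simp
    refine ⟨fun n => g * x n, ?_, fun y => ?_⟩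
    · refine tendsto_atTop_mono (fun n => ?_) (tendsto_atTop_add_const_right _ (-(d g⁻¹ 1)) h1)
      have := htri (x n) g⁻¹ 1
      rw [e, mul_one]; omega
    · have := (h2 (g⁻¹ * y)).sub (h2 g⁻¹)
      refine this.congr fun n => ?_
      rw [e, e, mul_one]; push_cast; ring
  have hone : ∀ f ∈ bdry d, f 1 = 0 := by
    rintro f ⟨x, -, h2⟩
    have := h2 1
    simp only [sub_self, Int.cast_zero] at this
    exact tendsto_nhds_unique this tendsto_const_nhds
  let inst : MulAction G (bdry d) :=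
    { smul := fun g f => ⟨fun y => f.1 (g⁻¹ * y) - f.1 g⁻¹, hact g f.1 f.2⟩
      one_smul := fun f => Subtype.ext (funext fun y => by
        change f.1 (1⁻¹ * y) - f.1 1⁻¹ = f.1 y
        simp [hone f.1 f.2])
      mul_smul := fun a b f => Subtype.ext (funext fun y => by
        change f.1 ((a * b)⁻¹ * y) - f.1 (a * b)⁻¹
          = (f.1 (b⁻¹ * (a⁻¹ * y)) - f.1 b⁻¹) - (f.1 (b⁻¹ * a⁻¹) - f.1 b⁻¹)
        simp [mul_assoc]) }
  have := hfin.to_subtype
  let H := (MulAction.toPermHom G (bdry d)).ker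
  have hH : ∀ h ∈ H, ∀ f ∈ bdry d, ∀ y, f (h * y) = f h + f y := by
    intro h hh f hf y
    have h1 : MulAction.toPermHom G (bdry d) h⁻¹ = 1 := H.inv_mem hh
    have h2 := congrFun (congrArg Subtype.val (congrArg (fun p : Equiv.Perm _ => p ⟨f, hf⟩) h1)) y
    change f (h⁻¹⁻¹ * y) - f h⁻¹⁻¹ = f y at h2
    rw [inv_inv] at h2; linarith
  have hzpow : ∀ h ∈ H, ∀ f ∈ bdry d, ∀ (n : ℤ) y, f (h ^ n * y) = n * f h + f y := by
    intro h hh f hf n
    induction n using Int.induction_on with
    | zero => simp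
    | succ n ih => intro y; rw [add_comm, zpow_add, zpow_one, mul_assoc, hH h hh f hf, ih]; push_cast; ring
    | pred n ih =>
      intro y
      have := hH h hh f hf (h ^ (-(n : ℤ) - 1) * y)
      rw [← mul_assoc, ← zpow_one_add, show 1 + (-(n : ℤ) - 1) = -n by ring, ih] at this
      push_cast at this ⊢; linarith
  obtain ⟨f0, hf0, -⟩ := acc Set.univ Set.infinite_univ
  obtain ⟨g, hg, hg0⟩ : ∃ g ∈ H, f0 g ≠ 0 := by
    by_contra hc
    push Not at hc
    apply hunb f0 hf0
    have : Finite (Quotient (QuotientGroup.rightRel H)) :=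
      Finite.of_equiv _ (QuotientGroup.quotientRightRelEquivQuotientLeftRel H).symm
    obtain ⟨C, hC⟩ := (Set.finite_range
      fun q : Quotient (QuotientGroup.rightRel H) => |f0 q.out|).bddAbove
    refine ⟨C, fun y => ?_⟩
    have h1 : QuotientGroup.rightRel H (Quotient.mk (QuotientGroup.rightRel H) y).out y :=
      Quotient.mk_out y
    rw [QuotientGroup.rightRel_apply] at h1
    have h2 := hH _ h1 f0 hf0 (Quotient.mk (QuotientGroup.rightRel H) y).out
    rw [hc _ h1, zero_add, inv_mul_cancel_right] at h2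
    rw [h2]; exact hC ⟨_, rfl⟩
  -- a finite set separating the boundary points
  obtain ⟨B0, hB0⟩ : ∃ B0 : Finset G, ∀ f ∈ bdry d, ∀ f' ∈ bdry d,
      (∀ y ∈ B0, f y = f' y) → f = f' := by
    have : ∀ p : bdry d × bdry d, ∃ y, p.1.1 y = p.2.1 y → p.1.1 = p.2.1 := by
      intro p
      by_cases h : p.1.1 = p.2.1
      · exact ⟨1, fun _ => h⟩
      · obtain ⟨y, hy⟩ := Function.ne_iff.1 h
        exact ⟨y, fun h' => absurd h' hy⟩
    choose w hw using this
    refine ⟨(Set.finite_range w).toFinset, fun f hf f' hf' h => hw (⟨f, hf⟩, ⟨f', hf'⟩) (h _ ?_)⟩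
    simp
  let B : Finset G := insert g⁻¹ (B0 ∪ B0.image (g⁻¹ * ·))
  have hE := near B
  have meet : ∀ x, ∃ n : ℤ, ¬ ∃ f ∈ bdry d, ∀ y ∈ B,
      ((d (g ^ n * x) y - d (g ^ n * x) 1 : ℤ) : ℝ) = f y := by
    intro x
    by_contra hc
    push Not at hc
    choose F hF1 hF2 using hc
    have e : ∀ (n : ℤ) y, d (g ^ (n + 1) * x) y = d (g ^ n * x) (g⁻¹ * y) := fun n y => by
      rw [← hinv g (g ^ n * x), add_comm, zpow_add]; simp [mul_assoc]
    have hstep : ∀ n, F (n + 1) = F n := by
      intro n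
      apply hB0 _ (hF1 _) _ (hF1 _)
      intro y hy
      have h1 := hF2 (n + 1) y (by simp [B, hy])
      have h2 := hF2 n (g⁻¹ * y) (by simp [B, hy])
      have h3 := hF2 n g⁻¹ (by simp [B])
      have h4 := hH _ (H.inv_mem hg) _ (hF1 n) y
      rw [e, e, mul_one] at h1
      push_cast at h1 h2 h3
      linarith
    have hconst : ∀ n, F n = F 0 := by
      intro n
      induction n using Int.induction_on with
      | zero => rfl
      | succ n ih => rw [hstep, ih]
      | pred n ih => rw [← hstep, ← ih]; congr 1; ring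
    have hN : ∀ n : ℤ, (d (g ^ n * x) 1 : ℝ) = d x 1 + n * F 0 g⁻¹ := by
      have hs : ∀ n : ℤ, (d (g ^ (n + 1) * x) 1 : ℝ) = d (g ^ n * x) 1 + F 0 g⁻¹ := by
        intro n
        have h3 := hF2 n g⁻¹ (by simp [B])
        rw [e, mul_one, ← hconst n]
        push_cast at h3; linarith
      intro n
      induction n using Int.induction_on with
      | zero => simp
      | succ n ih => rw [hs, ih]; push_cast; ring
      | pred n ih =>
        have := hs (-(n : ℤ) - 1)
        rw [sub_add_cancel, ih] at this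
        push_cast at this ⊢; linarith
    have hz : F 0 g⁻¹ = 0 := by
      by_contra hne
      obtain ⟨n, hn⟩ := exists_nat_gt ((d x 1 : ℝ) / |F 0 g⁻¹|)
      rw [div_lt_iff₀ (abs_pos.2 hne)] at hn
      have h1 := hN n
      have h2 := hN (-n)
      have h3 : (0 : ℝ) ≤ d (g ^ (n : ℤ) * x) 1 := by exact_mod_cast hnn _ _
      have h4 : (0 : ℝ) ≤ d (g ^ (-n : ℤ) * x) 1 := by exact_mod_cast hnn _ _
      push_cast at h1 h2
      rcases abs_cases (F 0 g⁻¹) with h | h <;> rw [h.1] at hn <;> linarith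
    refine Set.infinite_of_injective_forall_mem (f := fun n : ℤ => g ^ n * x) ?_ ?_
      (hprop 1 (d x 1))
    · intro m n h
      have h' := congrArg f0 h
      simp only [hzpow g hg f0 hf0, add_left_inj] at h'
      exact_mod_cast mul_right_cancel₀ hg0 h'
    · intro n
      have := hN n
      rw [hz, mul_zero, add_zero] at this
      change d 1 _ ≤ _
      rw [hsymm]; exact le_of_eq (by exact_mod_cast this)
  refine ⟨g, ?_⟩
  have : Finite (G ⧸ Subgroup.zpowers g) := by
    have := hE.to_subtype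
    refine Finite.of_surjective (fun z : {x | ¬ ∃ f ∈ bdry d, ∀ y ∈ B,
      ((d x y - d x 1 : ℤ) : ℝ) = f y} => ((z.1⁻¹ : G) : G ⧸ Subgroup.zpowers g)) ?_
    intro q
    induction q using QuotientGroup.induction_on with
    | H x =>
      obtain ⟨n, hn⟩ := meet x⁻¹
      refine ⟨⟨_, hn⟩, ?_⟩
      rw [QuotientGroup.eq]
      simp
  exact Subgroup.finiteIndex_of_finite_quotient

end Pool.Agent.Results.MP_76953b_al.VirtCyclic
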